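import Mathlib
import Pool.Agent.Lib.helper17.CO2

set_option autoImplicit false

namespace Pool.Agent.Results.MP_670fc8_lc.Q1

open FirstOrder FirstOrder.Language Pool.Agent.Lib.helper17.VCDefs

universe u

/-- no ict-pattern of depth two in one variable (consistency is finite satisfiability in `N`) -/
def DpMinimal (L : FirstOrder.Language.{0, 0}) (N : Type u) [L.Structure N] : Prop :=
  ¬ ∃ (n k : ℕ) (φ : L.Formula (Unit ⊕ Fin n)) (ψ : L.Formula (Unit ⊕ Fin k))
    (b : ℕ → Fin n → N) (c : ℕ → Fin k → N), ∀ (i j : ℕ) (s : Finset ℕ), ∃ x : N,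
      x ∈ inst φ (b i) ∧ x ∈ inst ψ (c j) ∧ (∀ l ∈ s, l ≠ i → x ∉ inst φ (b l)) ∧
        ∀ l ∈ s, l ≠ j → x ∉ inst ψ (c l)

open Pool.Agent.Lib.helper17.CO Pool.Agent.Lib.helper17.OC

lemma dp {N : Type u} [L.Structure N] [N ⊨ L.completeTheory M] : DpMinimal L N := by
  rintro ⟨n, k, φ, ψ, b, c, h⟩
  obtain ⟨m, hm⟩ : ∃ m, m = 4 * (n + k) + 5 := ⟨_, rfl⟩
  choose x h1 h2 h3 h4 using fun p : Fin m × Fin m => h p.1 p.2 (Finset.range m)
  have := count (fun (p : Fin m × Fin m) (_ : Unit) => x p)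
    (Sum.elim (fun q : Fin m × Fin n => b q.1 q.2) (fun q : Fin m × Fin k => c q.1 q.2))
    (fun p q e => by
      have e1 := e.comp (Sum.map id fun l => Sum.inl (p.1, l)) φ
      have e2 := e.comp (Sum.map id fun l => Sum.inr (p.2, l)) ψ
      have k1 : x q ∈ inst φ (b p.1) := by
        refine (iff_of_eq (congrArg φ.Realize ?_)).1
          (e1.1 ((iff_of_eq (congrArg φ.Realize ?_)).1 (h1 p))) <;>
          funext z <;> rcases z with z | z <;> rfl
      have k2 : x q ∈ inst ψ (c p.2) := by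
        refine (iff_of_eq (congrArg ψ.Realize ?_)).1
          (e2.1 ((iff_of_eq (congrArg ψ.Realize ?_)).1 (h2 p))) <;>
          funext z <;> rcases z with z | z <;> rfl
      refine Prod.ext (Fin.ext ?_) (Fin.ext ?_)
      · by_contra e; exact h3 q _ (Finset.mem_range.2 p.1.2) e k1
      · by_contra e; exact h4 q _ (Finset.mem_range.2 p.2.2) e k2)
  simp at this
  nlinarith

theorem result : ∃ (L : FirstOrder.Language.{0, 0}) (T : L.Theory), T.IsComplete ∧
    ∀ (N : Type u) [L.Structure N], N ⊨ T → DpMinimal L N ∧ ¬ WeaklyVCMinimal L N :=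
  ⟨L, L.completeTheory M, completeTheory.isComplete _ _, fun _ _ _ => ⟨dp, not_weak⟩⟩

end Pool.Agent.Results.MP_670fc8_lc.Q1
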