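import Mathlib
import Pool.Agent.Lib.helper17.CO2

set_option autoImplicit false

namespace Pool.Agent.Results.MP_670fc8_lc.Q2

open FirstOrder FirstOrder.Language Pool.Agent.Lib.helper17.VCDefs

universe u

/-- the complete `φ`-types over the finite set `B`, each given by the set of `b ∈ B` with
`φ(x; b)` in the type -/
def types {L : FirstOrder.Language.{0, 0}} {N : Type u} [L.Structure N] {m n : ℕ}
    (φ : L.Formula (Fin m ⊕ Fin n)) (B : Finset (Fin n → N)) : Set (Set (Fin n → N)) :=
  {s | ∃ a : Fin m → N, s = {b | b ∈ B ∧ φ.Realize (Sum.elim a b)}}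

/-- for each `φ(x; y)` the number of `φ`-types over `B` is `O(|B| ^ |x|)` -/
def LowVCDensity (L : FirstOrder.Language.{0, 0}) (N : Type u) [L.Structure N] : Prop :=
  ∀ (m n : ℕ) (φ : L.Formula (Fin m ⊕ Fin n)), ∃ C : ℕ, ∀ B : Finset (Fin n → N), B.Nonempty →
    (types φ B).encard ≤ (C * B.card ^ m : ℕ)

open Pool.Agent.Lib.helper17.CO Pool.Agent.Lib.helper17.OC

lemma low {N : Type u} [L.Structure N] [N ⊨ L.completeTheory M] : LowVCDensity L N := by
  intro m n φ
  refine ⟨((n + 1) * 2) ^ m * (2 ^ m) ^ m, fun B hB => ?_⟩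
  have hf : (types φ B).Finite := (B.finite_toSet.finite_subsets).subset (by
    rintro _ ⟨a, rfl⟩ b hb; exact hb.1)
  obtain ⟨r, s, hs, e⟩ := hf.fin_param
  choose a ha using fun i : Fin r => (e.subset ⟨i, rfl⟩ : s i ∈ types φ B)
  have := count a (fun q : Fin B.card × Fin n => (B.equivFin.symm q.1).1 q.2) (fun i j h => by
    apply hs
    rw [ha i, ha j]
    ext b
    refine and_congr_right fun hb => ?_
    have := h.comp (Sum.map id fun l => (B.equivFin ⟨b, hb⟩, l)) φ
    refine (iff_of_eq ?_).trans (this.trans (iff_of_eq ?_)) <;> refine congrArg φ.Realize ?_ <;>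
      funext z <;> rcases z with z | z <;> simp)
  rw [← e, ← Set.image_univ, hs.injOn.encard_image, Set.encard_univ]
  simp only [Fintype.card_fin, Fintype.card_prod, ENat.card_eq_coe_fintype_card] at this ⊢
  refine Nat.cast_le.2 (this.trans ?_)
  have := hB.card_pos
  rw [mul_right_comm (((n + 1) * 2) ^ m), ← mul_pow ((n + 1) * 2)]
  refine Nat.mul_le_mul_right _ (Nat.pow_le_pow_left ?_ _)
  nlinarith

theorem result : ∃ (L : FirstOrder.Language.{0, 0}) (T : L.Theory), T.IsComplete ∧
    ∀ (N : Type u) [L.Structure N], N ⊨ T → LowVCDensity L N ∧ ¬ WeaklyVCMinimal L N :=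
  ⟨L, L.completeTheory M, completeTheory.isComplete _ _, fun _ _ _ => ⟨low, not_weak⟩⟩

end Pool.Agent.Results.MP_670fc8_lc.Q2
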